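import Pool.Agent.Work.MP_1354f0_pr.Basic

/-!
# Maximum principle on a box of the lattice
-/

set_option autoImplicit false

namespace BIDLA

open Finset

/-- product of hyperbolic cosines -/
noncomputable def psiM {d : ℕ} (β : ℝ) (z0 z : Site d) : ℝ :=
  ∏ i, Real.cosh (β * ((z i : ℝ) - z0 i))

lemma psiM_pos {d : ℕ} (β : ℝ) (z0 z : Site d) : 0 < psiM β z0 z :=
  Finset.prod_pos fun _ _ => Real.cosh_pos _

lemma psiM_avg_aux {d : ℕ} (β : ℝ) (z0 z : Site d) (j : Fin d) :
    psiM β z0 (z + vec (j, true)) + psiM β z0 (z + vec (j, false)) =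
      2 * Real.cosh β * psiM β z0 z := by
  classical
  have key : ∀ b : Bool, psiM β z0 (z + vec (j, b)) =
      Real.cosh (β * ((z j : ℝ) - z0 j) + β * (if b then 1 else -1)) *
        ∏ i ∈ univ.erase j, Real.cosh (β * ((z i : ℝ) - z0 i)) := by
    intro b
    unfold psiM
    rw [← Finset.mul_prod_erase univ _ (mem_univ j)]
    congr 1
    · congr 1
      simp only [Pi.add_apply, vec, Pi.single_eq_same]
      cases b <;> simp <;> ring
    · refine Finset.prod_congr rfl fun i hi => ?_
      have hne : i ≠ j := (Finset.mem_erase.1 hi).1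
      simp only [Pi.add_apply, vec]
      rw [Pi.single_eq_of_ne hne, add_zero]
  have h0 : psiM β z0 z = Real.cosh (β * ((z j : ℝ) - z0 j)) *
      ∏ i ∈ univ.erase j, Real.cosh (β * ((z i : ℝ) - z0 i)) := by
    unfold psiM
    rw [← Finset.mul_prod_erase univ _ (mem_univ j)]
  rw [key, key, h0]
  simp only [if_true, Bool.false_eq_true, if_false, mul_one, mul_neg]
  rw [← sub_eq_add_neg, Real.cosh_add, Real.cosh_sub]
  ring

lemma psiM_avg {d : ℕ} (hd : 1 ≤ d) (β : ℝ) (z0 z : Site d) :
    (∑ e : Dir d, psiM β z0 (z + vec e)) / (2 * d) = Real.cosh β * psiM β z0 z := by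
  have hd0 : (d : ℝ) ≠ 0 := by
    have : d ≠ 0 := by omega
    exact_mod_cast this
  rw [Fintype.sum_prod_type]
  simp only [Fintype.sum_bool, psiM_avg_aux]
  rw [Finset.sum_const, Finset.card_univ, Fintype.card_fin, nsmul_eq_mul]
  field_simp

lemma cosh_le {β : ℝ} (h0 : 0 ≤ β) (h1 : β ≤ 1) : Real.cosh β ≤ 1 + β ^ 2 := by
  have h2 := Real.cosh_le_exp_half_sq β
  have h3 : |β ^ 2 / 2| ≤ 1 := by
    rw [abs_of_nonneg (by positivity)]
    nlinarith
  have h4 := Real.abs_exp_sub_one_le h3
  rw [abs_of_nonneg (by positivity : 0 ≤ β ^ 2 / 2)] at h4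
  have h5 := le_abs_self (Real.exp (β ^ 2 / 2) - 1)
  linarith

theorem max_principle {d : ℕ} (hd : 1 ≤ d) (u : Site d → ℝ) (K : ℝ) (hK : 1 ≤ K)
    (z0 : Site d) (D : ℕ) (hu0 : ∀ z, 0 ≤ u z)
    (huK : ∀ z, (∀ i, |z i - z0 i| ≤ D) → u z ≤ K)
    (hsub : ∀ z, (∀ i, |z i - z0 i| < D) →
      (1 + 1 / K) * u z ≤ (∑ e : Dir d, u (z + vec e)) / (2 * d)) :
    u z0 ≤ 2 * K * Real.exp (-(D : ℝ) / √K) := by
  classical
  have hK0 : 0 < K := by linarith
  have hd0 : (0 : ℝ) < d := by exact_mod_cast hd
  set β : ℝ := 1 / √K with hβ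
  have hs : 1 ≤ √K := by rw [Real.one_le_sqrt]; exact hK
  have hβ0 : 0 < β := by positivity
  have hβ1 : β ≤ 1 := by rw [hβ, div_le_one (by linarith)]; exact hs
  have hβ2 : β ^ 2 = 1 / K := by
    rw [hβ, div_pow, Real.sq_sqrt hK0.le]
    norm_num
  have hc := cosh_le hβ0.le hβ1
  rw [hβ2] at hc
  have hc1 : 1 < Real.cosh β := Real.one_lt_cosh.2 hβ0.ne'
  set c : ℝ := K / Real.cosh (β * D) with hcd
  have hcpos : 0 < c := div_pos hK0 (Real.cosh_pos _)
  -- the box
  set B : Finset (Site d) := Fintype.piFinset fun i => Finset.Icc (z0 i - D) (z0 i + D) with hB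
  have hmem : ∀ z : Site d, z ∈ B ↔ ∀ i, |z i - z0 i| ≤ D := by
    intro z
    rw [hB, Fintype.mem_piFinset]
    refine forall_congr' fun i => ?_
    rw [Finset.mem_Icc, abs_le]
    constructor
    · rintro ⟨h1, h2⟩; constructor <;> omega
    · rintro ⟨h1, h2⟩; constructor <;> omega
  have hz0 : z0 ∈ B := by rw [hmem]; intro i; simp
  obtain ⟨x, hxB, hxmax⟩ := Finset.exists_max_image B (fun z => u z - c * psiM β z0 z) ⟨z0, hz0⟩
  have hle : u x - c * psiM β z0 x ≤ 0 := by
    by_contra hcon
    push Not at hcon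
    rw [hmem] at hxB
    by_cases hbd : ∃ i, |x i - z0 i| = D
    · obtain ⟨i, hi⟩ := hbd
      have h1 : Real.cosh (β * D) ≤ psiM β z0 x := by
        unfold psiM
        rw [← Finset.mul_prod_erase univ _ (mem_univ i)]
        have h2 : Real.cosh (β * ((x i : ℝ) - z0 i)) = Real.cosh (β * D) := by
          rw [← Real.cosh_abs (β * ((x i : ℝ) - z0 i)), abs_mul, abs_of_pos hβ0]
          congr 2
          have : ((|x i - z0 i| : ℤ) : ℝ) = ((D : ℤ) : ℝ) := by rw [hi]
          push_cast at this
          exact this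
        rw [h2]
        have h3 : (1 : ℝ) ≤ ∏ j ∈ univ.erase i, Real.cosh (β * ((x j : ℝ) - z0 j)) := by
          have := Finset.prod_le_prod (s := univ.erase i) (f := fun _ => (1 : ℝ))
            (g := fun j => Real.cosh (β * ((x j : ℝ) - z0 j))) (fun _ _ => zero_le_one)
            (fun _ _ => Real.one_le_cosh _)
          simpa using this
        exact le_mul_of_one_le_right (Real.cosh_pos _).le h3
      have h4 : K ≤ c * psiM β z0 x := by
        have : K = c * Real.cosh (β * D) := by
          rw [hcd, div_mul_cancel₀ _ (Real.cosh_pos _).ne']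
        rw [this]
        exact mul_le_mul_of_nonneg_left h1 hcpos.le
      have h5 := huK x hxB
      linarith
    · push Not at hbd
      have hint : ∀ i, |x i - z0 i| < D := fun i => lt_of_le_of_ne (hxB i) (hbd i)
      have h1 := hsub x hint
      have hnb : ∀ e : Dir d, x + vec e ∈ B := by
        intro e
        rw [hmem]
        intro i
        have h2 := hint i
        have h3 : |(vec e : Site d) i| ≤ 1 := by
          unfold vec
          by_cases hi : i = e.1
          · subst hi
            rw [Pi.single_eq_same]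
            split_ifs <;> simp
          · rw [Pi.single_eq_of_ne hi]
            simp
        rw [Pi.add_apply]
        rw [abs_lt] at h2
        rw [abs_le] at h3 ⊢
        constructor <;> omega
      have h2 : ∀ e : Dir d, u (x + vec e) - c * psiM β z0 (x + vec e) ≤
          u x - c * psiM β z0 x := fun e => hxmax _ (hnb e)
      have h3 : (∑ e : Dir d, (u (x + vec e) - c * psiM β z0 (x + vec e))) / (2 * d) ≤
          u x - c * psiM β z0 x := by
        rw [div_le_iff₀ (by positivity)]
        refine (Finset.sum_le_sum fun e _ => h2 e).trans ?_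
        rw [Finset.sum_const, Finset.card_univ, Fintype.card_prod, Fintype.card_fin,
          Fintype.card_bool, nsmul_eq_mul]
        push_cast
        linarith
      rw [Finset.sum_sub_distrib, ← Finset.mul_sum, sub_div, mul_div_assoc, psiM_avg hd] at h3
      have h4 : Real.cosh β * u x ≤ (1 + 1 / K) * u x :=
        mul_le_mul_of_nonneg_right hc (hu0 x)
      have h5 : Real.cosh β * (u x - c * psiM β z0 x) ≤ 1 * (u x - c * psiM β z0 x) := by
        linarith
      have h6 := le_of_mul_le_mul_right h5 hcon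
      linarith
  have hfin := hxmax z0 hz0
  have hpsi : psiM β z0 z0 = 1 := by
    unfold psiM
    simp
  have h1 : u z0 ≤ c := by
    simp only [hpsi, mul_one] at hfin
    linarith
  refine h1.trans ?_
  rw [hcd, div_le_iff₀ (Real.cosh_pos _)]
  have h2 : Real.exp (β * D) / 2 ≤ Real.cosh (β * D) := by
    rw [Real.cosh_eq]
    have := Real.exp_pos (-(β * D))
    linarith
  have h3 : Real.exp (-(D : ℝ) / √K) = (Real.exp (β * D))⁻¹ := by
    rw [← Real.exp_neg]
    congr 1
    rw [hβ]
    ring
  rw [h3]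
  have h4 := Real.exp_pos (β * D)
  calc K = 2 * K * (Real.exp (β * D))⁻¹ * (Real.exp (β * D) / 2) := by field_simp
    _ ≤ _ := mul_le_mul_of_nonneg_left h2 (by positivity)

end BIDLA
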