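import Mathlib

/-!
# Random walks: fluctuations of order `√n` with positive probability and infinitely often
-/

set_option autoImplicit false

namespace BIDLA

open MeasureTheory ProbabilityTheory Filter Topology Finset
open scoped ENNReal NNReal

variable {Ω : Type*} [MeasurableSpace Ω] {P : Measure Ω} [IsProbabilityMeasure P]

/-- CLT and portmanteau for open sets -/
theorem walk_open (X : ℕ → Ω → ℝ) (hindep : iIndepFun X P)
    (hident : ∀ n, IdentDistrib (X n) (X 0) P P) (hL2 : MemLp (X 0) 2 P)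
    (hmean : ∫ ω, X 0 ω ∂P = 0) (hvar : 0 < ∫ ω, (X 0 ω) ^ 2 ∂P) {G : Set ℝ} (hG : IsOpen G)
    (hG0 : volume G ≠ 0) :
    ∃ c : ℝ, 0 < c ∧ ∀ᶠ n : ℕ in atTop,
      c ≤ (P {ω | (√n)⁻¹ * ∑ k ∈ range n, X k ω ∈ G}).toReal := by
  have hX0 : AEMeasurable (X 0) P := (hident 0).aemeasurable_fst
  have hv : Var[X 0; P] ≠ 0 := by
    rw [variance_eq_sub hL2]
    have h1 : ∫ ω, (X 0 ^ 2) ω ∂P = ∫ ω, (X 0 ω) ^ 2 ∂P := rfl
    rw [h1, hmean]
    simp only [ne_eq, OfNat.ofNat_ne_zero, not_false_eq_true, zero_pow, sub_zero]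
    exact hvar.ne'
  set v : ℝ≥0 := Var[X 0; P].toNNReal with hvd
  have hv0 : v ≠ 0 := by
    rw [hvd, ne_eq, Real.toNNReal_eq_zero, not_le]
    exact lt_of_le_of_ne (variance_nonneg _ _) hv.symm
  have hY : HasLaw (id : ℝ → ℝ) (gaussianReal 0 v) (gaussianReal 0 v) :=
    ⟨aemeasurable_id, Measure.map_id⟩
  have hclt := tendstoInDistribution_inv_sqrt_mul_sum_sub hY hL2 hindep hident
  have hlim := ProbabilityMeasure.le_liminf_measure_open_of_tendsto hclt.tendsto hG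
  have hγ : 0 < (gaussianReal 0 v) G := by
    rw [pos_iff_ne_zero]
    intro h0
    exact hG0 ((gaussianReal_absolutelyContinuous' 0 hv0) h0)
  have hmapid : (gaussianReal 0 v).map (id : ℝ → ℝ) = gaussianReal 0 v := Measure.map_id
  have hlim' : (gaussianReal 0 v) G ≤ liminf (fun n : ℕ =>
      P {ω | (√n)⁻¹ * ∑ k ∈ range n, X k ω ∈ G}) atTop := by
    have e1 : (gaussianReal 0 v) G = ((gaussianReal 0 v).map (id : ℝ → ℝ)) G := by rw [hmapid]
    rw [e1]
    refine hlim.trans (le_of_eq ?_)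
    congr 1
    funext n
    have hm := hclt.forall_aemeasurable n
    show (P.map (fun ω ↦ (√n)⁻¹ * (∑ k ∈ Finset.range n, X k ω - n * P[X 0]))) G = _
    rw [Measure.map_apply_of_aemeasurable hm hG.measurableSet]
    congr 1
    ext ω
    simp only [Set.mem_preimage, Set.mem_ofPred_eq, hmean, mul_zero, sub_zero]
  have hfin : (gaussianReal 0 v) G ≠ ∞ := measure_ne_top _ _
  have hhalf : (gaussianReal 0 v) G / 2 < liminf (fun n : ℕ =>
      P {ω | (√n)⁻¹ * ∑ k ∈ range n, X k ω ∈ G}) atTop :=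
    lt_of_lt_of_le (ENNReal.half_lt_self hγ.ne' hfin) hlim'
  have hev := eventually_lt_of_lt_liminf hhalf
  refine ⟨((gaussianReal 0 v) G / 2).toReal, ?_, ?_⟩
  · apply ENNReal.toReal_pos
    · exact (ENNReal.half_pos hγ.ne').ne'
    · exact ne_top_of_le_ne_top hfin (ENNReal.half_le_self)
  · filter_upwards [hev] with n hn
    exact ENNReal.toReal_mono (measure_ne_top _ _) hn.le

/-- **Block W, part 1**. -/
theorem walk_prob (X : ℕ → Ω → ℝ) (hindep : iIndepFun X P)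
    (hident : ∀ n, IdentDistrib (X n) (X 0) P P) (hL2 : MemLp (X 0) 2 P)
    (hmean : ∫ ω, X 0 ω ∂P = 0) (hvar : 0 < ∫ ω, (X 0 ω) ^ 2 ∂P) :
    ∀ K : ℝ, ∃ c > 0, ∀ᶠ n : ℕ in atTop,
      c ≤ (P {ω | K * √n ≤ ∑ k ∈ range n, X k ω}).toReal ∧
      c ≤ (P {ω | ∑ k ∈ range n, X k ω ≤ -(K * √n)}).toReal := by
  intro K
  obtain ⟨c1, hc1, h1⟩ := walk_open X hindep hident hL2 hmean hvar (G := Set.Ioi K) isOpen_Ioi
    (by simp)
  obtain ⟨c2, hc2, h2⟩ := walk_open X hindep hident hL2 hmean hvar (G := Set.Iio (-K)) isOpen_Iio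
    (by simp)
  refine ⟨min c1 c2, lt_min hc1 hc2, ?_⟩
  filter_upwards [h1, h2, eventually_gt_atTop 0] with n h1 h2 hn
  have hs : 0 < √(n : ℝ) := Real.sqrt_pos.2 (by exact_mod_cast hn)
  constructor
  · refine (min_le_left _ _).trans (h1.trans ?_)
    refine ENNReal.toReal_mono (measure_ne_top _ _) (measure_mono ?_)
    intro ω hω
    have h3 : K < (√n)⁻¹ * ∑ k ∈ range n, X k ω := hω
    show K * √n ≤ ∑ k ∈ range n, X k ω
    rw [inv_mul_eq_div, lt_div_iff₀ hs] at h3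
    exact h3.le
  · refine (min_le_right _ _).trans (h2.trans ?_)
    refine ENNReal.toReal_mono (measure_ne_top _ _) (measure_mono ?_)
    intro ω hω
    have h3 : (√n)⁻¹ * ∑ k ∈ range n, X k ω < -K := hω
    show ∑ k ∈ range n, X k ω ≤ -(K * √n)
    rw [inv_mul_eq_div, div_lt_iff₀ hs] at h3
    linarith

/-! ### zero-one law -/

/-- shifting by a constant -/
lemma freq_shift {K : ℝ} {a b : ℕ → ℝ} {s : ℝ} (h : ∀ᶠ n in atTop, b n = a n + s)
    (ha : ∀ j : ℕ, ∃ᶠ n : ℕ in atTop, (K - 1 / ((j : ℝ) + 1)) * √n ≤ a n) :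
    ∀ j : ℕ, ∃ᶠ n : ℕ in atTop, (K - 1 / ((j : ℝ) + 1)) * √n ≤ b n := by
  intro j
  have h1 := ha (j + 1)
  have hgap : 0 < 1 / ((j : ℝ) + 1) - 1 / (((j + 1 : ℕ) : ℝ) + 1) := by
    rw [sub_pos]
    apply one_div_lt_one_div_of_lt (by positivity)
    push_cast
    linarith
  have h2 : ∀ᶠ n : ℕ in atTop,
      |s| ≤ (1 / ((j : ℝ) + 1) - 1 / (((j + 1 : ℕ) : ℝ) + 1)) * √n := by
    have : Tendsto (fun n : ℕ => (1 / ((j : ℝ) + 1) - 1 / (((j + 1 : ℕ) : ℝ) + 1)) * √n)
        atTop atTop :=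
      Tendsto.const_mul_atTop hgap
        (Real.tendsto_sqrt_atTop.comp tendsto_natCast_atTop_atTop)
    exact this.eventually_ge_atTop _
  refine (h1.and_eventually (h.and h2)).mono ?_
  rintro n ⟨h3, h4, h5⟩
  rw [h4]
  have := neg_abs_le s
  nlinarith

lemma tail_measurable {Ω' : Type*} [MeasurableSpace Ω'] {Y : ℕ → Ω' → ℝ} {m : ℕ}
    (hY : ∀ k, m ≤ k → Measurable (Y k)) (K : ℝ) :
    MeasurableSet {ω | ∀ j : ℕ, ∃ᶠ n : ℕ in atTop,
      (K - 1 / ((j : ℝ) + 1)) * √n ≤ ∑ k ∈ Ico m n, Y k ω} := by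
  have e : {ω | ∀ j : ℕ, ∃ᶠ n : ℕ in atTop,
      (K - 1 / ((j : ℝ) + 1)) * √n ≤ ∑ k ∈ Ico m n, Y k ω} =
      ⋂ j : ℕ, ⋂ N : ℕ, ⋃ n : ℕ, ⋃ _ : n ≥ N,
        {ω | (K - 1 / ((j : ℝ) + 1)) * √n ≤ ∑ k ∈ Ico m n, Y k ω} := by
    ext ω
    simp only [Set.mem_ofPred_eq, frequently_atTop, Set.mem_iInter, Set.mem_iUnion]
    simp only [exists_prop]
  rw [e]
  refine MeasurableSet.iInter fun j => MeasurableSet.iInter fun N =>
    MeasurableSet.iUnion fun n => MeasurableSet.iUnion fun _ => ?_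
  have hm : Measurable (fun ω => ∑ k ∈ Ico m n, Y k ω) :=
    Finset.measurable_fun_sum _ fun k hk => hY k (Finset.mem_Ico.1 hk).1
  exact measurableSet_le measurable_const hm

lemma io_aux {X : ℕ → Ω → ℝ} (hm : ∀ n, Measurable (X n)) (hindep : iIndepFun X P) (K : ℝ)
    {c : ℝ≥0∞} (hc : 0 < c)
    (h : ∀ᶠ n : ℕ in atTop, c ≤ P {ω | K * √n ≤ ∑ k ∈ range n, X k ω}) :
    ∀ᵐ ω ∂P, ∃ᶠ n : ℕ in atTop, (K - 1) * √n ≤ ∑ k ∈ range n, X k ω := by
  set A : Set Ω := {ω | ∀ j : ℕ, ∃ᶠ n : ℕ in atTop,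
    (K - 1 / ((j : ℝ) + 1)) * √n ≤ ∑ k ∈ range n, X k ω} with hA
  have hAm : ∀ m : ℕ, A = {ω | ∀ j : ℕ, ∃ᶠ n : ℕ in atTop,
      (K - 1 / ((j : ℝ) + 1)) * √n ≤ ∑ k ∈ Ico m n, X k ω} := by
    intro m
    ext ω
    constructor
    · intro hω
      refine freq_shift (s := -∑ k ∈ range m, X k ω) ?_ hω
      filter_upwards [eventually_ge_atTop m] with n hn
      rw [← Finset.sum_range_add_sum_Ico _ hn]
      ring
    · intro hω
      refine freq_shift (s := ∑ k ∈ range m, X k ω) ?_ hω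
      filter_upwards [eventually_ge_atTop m] with n hn
      rw [← Finset.sum_range_add_sum_Ico _ hn]
      ring
  have htail : MeasurableSet[limsup (fun n => MeasurableSpace.comap (X n) inferInstance) atTop]
      A := by
    rw [limsup_eq_iInf_iSup_of_nat, MeasurableSpace.measurableSet_iInf]
    intro m
    rw [hAm m]
    refine @tail_measurable Ω (⨆ i, ⨆ (_ : i ≥ m), MeasurableSpace.comap (X i) inferInstance)
      X m ?_ K
    intro k hk
    have h1 : MeasurableSpace.comap (X k) inferInstance ≤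
        ⨆ i, ⨆ (_ : i ≥ m), MeasurableSpace.comap (X i) inferInstance :=
      le_iSup₂_of_le (f := fun i (_ : i ≥ m) => MeasurableSpace.comap (X i) inferInstance)
        k hk le_rfl
    exact Measurable.mono (comap_measurable (X k)) h1 le_rfl
  have h01 := measure_zero_or_one_of_measurableSet_limsup_atTop
    (fun n => (hm n).comap_le) hindep htail
  -- positive probability
  have hpos : c ≤ P A := by
    set E : ℕ → Set Ω := fun n => {ω | K * √n ≤ ∑ k ∈ range n, X k ω} with hE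
    have hEm : ∀ n, MeasurableSet (E n) := fun n =>
      measurableSet_le measurable_const (Finset.measurable_fun_sum _ fun k _ => hm k)
    set B : ℕ → Set Ω := fun N => ⋃ n, ⋃ _ : n ≥ N, E n with hB
    have hBm : ∀ N, MeasurableSet (B N) := fun N =>
      MeasurableSet.iUnion fun n => MeasurableSet.iUnion fun _ => hEm n
    have hBanti : Antitone B := by
      intro N N' hNN ω hω
      simp only [hB, Set.mem_iUnion] at hω ⊢
      obtain ⟨n, hn, hω⟩ := hω
      exact ⟨n, le_trans hNN hn, hω⟩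
    have hlim := tendsto_measure_iInter_atTop (μ := P) (fun N => (hBm N).nullMeasurableSet)
      hBanti ⟨0, measure_ne_top _ _⟩
    have hcB : ∀ N, c ≤ (P ∘ B) N := by
      intro N
      obtain ⟨n, hn, hnN⟩ := (h.and (eventually_ge_atTop N)).exists
      refine hn.trans (measure_mono ?_)
      intro ω hω
      simp only [hB, Set.mem_iUnion]
      exact ⟨n, hnN, hω⟩
    have h1 : c ≤ P (⋂ N, B N) := ge_of_tendsto' hlim hcB
    refine h1.trans (measure_mono ?_)
    intro ω hω j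
    rw [frequently_atTop]
    intro N
    simp only [hB, Set.mem_iInter, Set.mem_iUnion] at hω
    obtain ⟨n, hn, hω⟩ := hω N
    refine ⟨n, hn, ?_⟩
    have h2 : K * √n ≤ ∑ k ∈ range n, X k ω := hω
    have h3 : 0 ≤ 1 / ((j : ℝ) + 1) * √n := by positivity
    linarith
  have hone : P A = 1 := by
    rcases h01 with h0 | h1
    · rw [h0] at hpos
      exact absurd (le_antisymm hpos bot_le) hc.ne'
    · exact h1
  have hAmeas : MeasurableSet A := by
    rw [hAm 0]
    exact tail_measurable (fun k _ => hm k) K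
  have hae : ∀ᵐ ω ∂P, ω ∈ A := by
    rw [mem_ae_iff_prob_eq_one hAmeas |>.symm] at hone
    exact hone
  filter_upwards [hae] with ω hω
  have := hω 0
  simpa using this

/-- **Block W, part 2**. -/
theorem walk_io (X : ℕ → Ω → ℝ) (hindep : iIndepFun X P)
    (hident : ∀ n, IdentDistrib (X n) (X 0) P P) (hL2 : MemLp (X 0) 2 P)
    (hmean : ∫ ω, X 0 ω ∂P = 0) (hvar : 0 < ∫ ω, (X 0 ω) ^ 2 ∂P) :
    ∀ K : ℝ, (∀ᵐ ω ∂P, ∃ᶠ n : ℕ in atTop, K * √n ≤ ∑ k ∈ range n, X k ω) ∧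
      (∀ᵐ ω ∂P, ∃ᶠ n : ℕ in atTop, ∑ k ∈ range n, X k ω ≤ -(K * √n)) := by
  intro K
  have hae : ∀ n, AEMeasurable (X n) P := fun n => (hident n).aemeasurable_fst
  set Y : ℕ → Ω → ℝ := fun n => (hae n).mk (X n) with hY
  have hYm : ∀ n, Measurable (Y n) := fun n => (hae n).measurable_mk
  have hXY : ∀ n, X n =ᵐ[P] Y n := fun n => (hae n).ae_eq_mk
  have hYindep : iIndepFun Y P := hindep.congr hXY
  have hall : ∀ᵐ ω ∂P, ∀ n, X n ω = Y n ω := ae_all_iff.2 hXY
  obtain ⟨c, hc, hev⟩ := walk_prob X hindep hident hL2 hmean hvar (K + 1)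
  have hsum : ∀ᵐ ω ∂P, ∀ n, ∑ k ∈ range n, X k ω = ∑ k ∈ range n, Y k ω := by
    filter_upwards [hall] with ω hω n
    exact Finset.sum_congr rfl fun k _ => hω k
  constructor
  · have h1 : ∀ᶠ n : ℕ in atTop, ENNReal.ofReal c ≤
        P {ω | (K + 1) * √n ≤ ∑ k ∈ range n, Y k ω} := by
      filter_upwards [hev] with n hn
      have e : P {ω | (K + 1) * √n ≤ ∑ k ∈ range n, Y k ω} =
          P {ω | (K + 1) * √n ≤ ∑ k ∈ range n, X k ω} := by
        apply measure_congr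
        filter_upwards [hsum] with ω hω
        apply propext
        show (K + 1) * √n ≤ ∑ k ∈ range n, Y k ω ↔ (K + 1) * √n ≤ ∑ k ∈ range n, X k ω
        rw [hω]
      rw [e]
      exact ENNReal.ofReal_le_of_le_toReal hn.1
    have h2 := io_aux hYm hYindep (K + 1) (ENNReal.ofReal_pos.2 hc) h1
    filter_upwards [h2, hsum] with ω hω hs
    refine hω.mono fun n hn => ?_
    rw [hs n]
    simpa using hn
  · have hZm : ∀ n, Measurable (fun ω => -Y n ω) := fun n => (hYm n).neg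
    have hZindep : iIndepFun (fun n ω => -Y n ω) P :=
      hYindep.comp (fun _ x => -x) (fun _ => measurable_neg)
    have h1 : ∀ᶠ n : ℕ in atTop, ENNReal.ofReal c ≤
        P {ω | (K + 1) * √n ≤ ∑ k ∈ range n, -Y k ω} := by
      filter_upwards [hev] with n hn
      have e : P {ω | (K + 1) * √n ≤ ∑ k ∈ range n, -Y k ω} =
          P {ω | ∑ k ∈ range n, X k ω ≤ -((K + 1) * √n)} := by
        apply measure_congr
        filter_upwards [hsum] with ω hω
        apply propext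
        show (K + 1) * √n ≤ ∑ k ∈ range n, -Y k ω ↔ ∑ k ∈ range n, X k ω ≤ -((K + 1) * √n)
        rw [Finset.sum_neg_distrib, hω n]
        constructor <;> intro h <;> linarith
      rw [e]
      exact ENNReal.ofReal_le_of_le_toReal hn.2
    have h2 := io_aux hZm hZindep (K + 1) (ENNReal.ofReal_pos.2 hc) h1
    filter_upwards [h2, hsum] with ω hω hs
    refine hω.mono fun n hn => ?_
    rw [hs n]
    rw [Finset.sum_neg_distrib] at hn
    have e : K + 1 - 1 = K := by ring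
    rw [e] at hn
    linarith

end BIDLA
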