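import Mathlib

/-!
# Kolmogorov's maximal inequality
-/

set_option autoImplicit false

namespace BIDLA

open MeasureTheory ProbabilityTheory Filter Topology Finset
open scoped ENNReal NNReal

variable {Ω : Type*} [mΩ : MeasurableSpace Ω] {P : Measure Ω} [IsProbabilityMeasure P]

/-- partial sums -/
def SS (Y : ℕ → Ω → ℝ) (m : ℕ) (ω : Ω) : ℝ := ∑ k ∈ range m, Y k ω

/-- first passage events -/
def AA (Y : ℕ → Ω → ℝ) (a : ℝ) (m : ℕ) : Set Ω :=
  {ω | a ≤ |SS Y m ω|} ∩ ⋂ j ∈ range m, {ω | |SS Y j ω| < a}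

omit mΩ in
lemma AA_disjoint (Y : ℕ → Ω → ℝ) (a : ℝ) : Pairwise (Function.onFun Disjoint (AA Y a)) := by
  have key : ∀ i j, i < j → Disjoint (AA Y a i) (AA Y a j) := by
    intro i j hij
    rw [Set.disjoint_left]
    intro ω h1 h2
    have h3 : a ≤ |SS Y i ω| := h1.1
    have h4 := h2.2
    simp only [Set.mem_iInter] at h4
    have h5 : |SS Y i ω| < a := h4 i (Finset.mem_range.2 hij)
    linarith
  intro i j hij
  rcases lt_or_gt_of_ne hij with h | h
  · exact key i j h
  · exact (key j i h).symm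

omit mΩ in
lemma AA_union (Y : ℕ → Ω → ℝ) (a : ℝ) (n : ℕ) :
    {ω | ∃ m ≤ n, a ≤ |SS Y m ω|} ⊆ ⋃ m ∈ range (n + 1), AA Y a m := by
  classical
  rintro ω ⟨m, hm, hω⟩
  have hex : ∃ m, a ≤ |SS Y m ω| := ⟨m, hω⟩
  simp only [Set.mem_iUnion]
  refine ⟨Nat.find hex, ?_, ?_, ?_⟩
  · rw [Finset.mem_range]
    exact Nat.lt_succ_of_le ((Nat.find_min' hex hω).trans hm)
  · exact Nat.find_spec hex
  · simp only [Set.mem_iInter]
    intro j hj
    have := Nat.find_min hex (Finset.mem_range.1 hj)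
    exact not_le.1 this

lemma indicator_measurable {Ω' : Type*} [MeasurableSpace Ω'] {Y : ℕ → Ω' → ℝ} {m : ℕ}
    (hY : ∀ k, k < m → Measurable (Y k)) (a : ℝ) :
    Measurable ((AA Y a m).indicator (SS Y m)) := by
  have hS : ∀ j, j ≤ m → Measurable (SS Y j) := fun j hj =>
    Finset.measurable_fun_sum _ fun k hk => hY k (lt_of_lt_of_le (Finset.mem_range.1 hk) hj)
  refine Measurable.indicator (hS m le_rfl) ?_
  refine MeasurableSet.inter (measurableSet_le measurable_const (hS m le_rfl).abs) ?_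
  exact Finset.measurableSet_biInter _ fun j hj =>
    measurableSet_lt (hS j (Finset.mem_range.1 hj).le).abs measurable_const

lemma walk_max_aux (Y : ℕ → Ω → ℝ) (hm : ∀ n, Measurable (Y n)) (hindep : iIndepFun Y P)
    (hL2 : ∀ n, MemLp (Y n) 2 P) (hmean : ∀ n, ∫ ω, Y n ω ∂P = 0) {v : ℝ}
    (hvar : ∀ n, ∫ ω, (Y n ω) ^ 2 ∂P = v) {a : ℝ} (ha : 0 < a) (n : ℕ) :
    (P {ω | ∃ m ≤ n, a ≤ |SS Y m ω|}).toReal ≤ n * v / a ^ 2 := by
  have hSm : ∀ m, Measurable (SS Y m) := fun m => Finset.measurable_fun_sum _ fun k _ => hm k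
  have hSL : ∀ m, MemLp (SS Y m) 2 P := fun m => memLp_finsetSum _ fun k _ => hL2 k
  have hAm : ∀ m, MeasurableSet (AA Y a m) := fun m =>
    (measurableSet_le measurable_const (hSm m).abs).inter
      (Finset.measurableSet_biInter _ fun j _ => measurableSet_lt (hSm j).abs measurable_const)
  have hSq : ∀ m, Integrable (fun ω => (SS Y m ω) ^ 2) P := fun m => (hSL m).integrable_sq
  -- second moment of the sum
  have hSn : ∫ ω, (SS Y n ω) ^ 2 ∂P = n * v := by
    have h1 : SS Y n = ∑ k ∈ range n, Y k := by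
      funext ω
      rw [Finset.sum_apply]
      rfl
    have hvk : ∀ k, Var[Y k; P] = v := by
      intro k
      rw [variance_eq_sub (hL2 k), hmean k]
      have : ∫ ω, (Y k ^ 2) ω ∂P = v := hvar k
      rw [this]
      ring
    have h2 := IndepFun.variance_sum (μ := P) (X := Y) (s := range n) (fun i _ => hL2 i)
      (fun i _ j _ hij => hindep.indepFun hij)
    rw [← h1, Finset.sum_congr rfl (fun k _ => hvk k), Finset.sum_const, Finset.card_range,
      nsmul_eq_mul, variance_eq_sub (hSL n)] at h2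
    have h3 : ∫ ω, SS Y n ω ∂P = 0 := by
      unfold SS
      rw [integral_finsetSum _ fun k _ => (hL2 k).integrable (by norm_num)]
      exact Finset.sum_eq_zero fun k _ => hmean k
    rw [h3] at h2
    have h4 : ∫ ω, (SS Y n ^ 2) ω ∂P = ∫ ω, (SS Y n ω) ^ 2 ∂P := rfl
    rw [h4] at h2
    linarith
  -- the key inequality
  have key : ∀ m ∈ range (n + 1), a ^ 2 * (P (AA Y a m)).toReal ≤
      ∫ ω in AA Y a m, (SS Y n ω) ^ 2 ∂P := by
    intro m hmn
    rw [Finset.mem_range] at hmn
    have hmn' : m ≤ n := by omega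
    set R : Ω → ℝ := fun ω => ∑ k ∈ Ico m n, Y k ω with hR
    have hRm : Measurable R := Finset.measurable_fun_sum _ fun k _ => hm k
    have hRL : MemLp R 2 P := memLp_finsetSum _ fun k _ => hL2 k
    have hsplit : ∀ ω, SS Y n ω = SS Y m ω + R ω := by
      intro ω
      unfold SS
      rw [hR]
      simp only
      rw [Finset.sum_range_add_sum_Ico _ hmn']
    set F : Ω → ℝ := (AA Y a m).indicator (SS Y m) with hF
    -- measurability with respect to the past and the future
    have h_le : ∀ i, MeasurableSpace.comap (Y i) inferInstance ≤ mΩ := fun i => (hm i).comap_le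
    have hIndep := indep_iSup_of_disjoint (m := fun i => MeasurableSpace.comap (Y i) inferInstance)
      h_le hindep (S := {i | i < m}) (T := {i | m ≤ i}) (by
        rw [Set.disjoint_left]; intro i hi hj
        have h1 : i < m := hi
        have h2 : m ≤ i := hj
        omega)
    have hYF : ∀ k, k < m → Measurable[⨆ i ∈ {i | i < m},
        MeasurableSpace.comap (Y i) inferInstance] (Y k) := by
      intro k hk
      have h1 : MeasurableSpace.comap (Y k) inferInstance ≤
          ⨆ i ∈ {i | i < m}, MeasurableSpace.comap (Y i) inferInstance :=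
        le_iSup₂_of_le (f := fun i (_ : i ∈ {i | i < m}) =>
          MeasurableSpace.comap (Y i) inferInstance) k hk le_rfl
      exact Measurable.mono (comap_measurable (Y k)) h1 le_rfl
    have hYT : ∀ k, m ≤ k → Measurable[⨆ i ∈ {i | m ≤ i},
        MeasurableSpace.comap (Y i) inferInstance] (Y k) := by
      intro k hk
      have h1 : MeasurableSpace.comap (Y k) inferInstance ≤
          ⨆ i ∈ {i | m ≤ i}, MeasurableSpace.comap (Y i) inferInstance :=
        le_iSup₂_of_le (f := fun i (_ : i ∈ {i | m ≤ i}) =>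
          MeasurableSpace.comap (Y i) inferInstance) k hk le_rfl
      exact Measurable.mono (comap_measurable (Y k)) h1 le_rfl
    have hFF : Measurable[⨆ i ∈ {i | i < m},
        MeasurableSpace.comap (Y i) inferInstance] F :=
      @indicator_measurable Ω (⨆ i ∈ {i | i < m}, MeasurableSpace.comap (Y i) inferInstance)
        Y m hYF a
    have hRT : Measurable[⨆ i ∈ {i | m ≤ i},
        MeasurableSpace.comap (Y i) inferInstance] R :=
      Finset.measurable_fun_sum _ fun k hk => hYT k (Finset.mem_Ico.1 hk).1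
    have hFR : IndepFun F R P := by
      rw [IndepFun_iff_Indep]
      exact indep_of_indep_of_le_right (indep_of_indep_of_le_left hIndep hFF.comap_le)
        hRT.comap_le
    have hRmean : ∫ ω, R ω ∂P = 0 := by
      rw [hR]
      simp only
      rw [integral_finsetSum _ fun k _ => (hL2 k).integrable (by norm_num)]
      exact Finset.sum_eq_zero fun k _ => hmean k
    have hFL : MemLp F 2 P := (hSL m).indicator (hAm m)
    have hcross : ∫ ω, F ω * R ω ∂P = 0 := by
      rw [hFR.integral_fun_mul_eq_mul_integral hFL.aestronglyMeasurable hRL.aestronglyMeasurable,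
        hRmean, mul_zero]
    have hcross' : ∫ ω in AA Y a m, SS Y m ω * R ω ∂P = 0 := by
      rw [← integral_indicator (hAm m)]
      rw [← hcross]
      congr 1
      funext ω
      rw [hF]
      by_cases h : ω ∈ AA Y a m
      · rw [Set.indicator_of_mem h, Set.indicator_of_mem h]
      · rw [Set.indicator_of_notMem h, Set.indicator_of_notMem h, zero_mul]
    have hint1 : Integrable (fun ω => SS Y m ω * R ω) P := (hSL m).integrable_mul hRL
    have hint2 : Integrable (fun ω => (R ω) ^ 2) P := hRL.integrable_sq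
    have hexp : ∫ ω in AA Y a m, (SS Y n ω) ^ 2 ∂P =
        ∫ ω in AA Y a m, (SS Y m ω) ^ 2 ∂P + 2 * ∫ ω in AA Y a m, SS Y m ω * R ω ∂P +
          ∫ ω in AA Y a m, (R ω) ^ 2 ∂P := by
      have i1 : IntegrableOn (fun ω => (SS Y m ω) ^ 2) (AA Y a m) P := (hSq m).integrableOn
      have i2 : IntegrableOn (fun ω => 2 * (SS Y m ω * R ω)) (AA Y a m) P :=
        (hint1.const_mul 2).integrableOn
      have i12 : IntegrableOn (fun ω => (SS Y m ω) ^ 2 + 2 * (SS Y m ω * R ω)) (AA Y a m) P :=
        i1.add i2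
      have i3 : IntegrableOn (fun ω => (R ω) ^ 2) (AA Y a m) P := hint2.integrableOn
      rw [← integral_const_mul, ← integral_add i1 i2, ← integral_add i12 i3]
      refine setIntegral_congr_fun (hAm m) fun ω _ => ?_
      show (SS Y n ω) ^ 2 = (SS Y m ω) ^ 2 + 2 * (SS Y m ω * R ω) + (R ω) ^ 2
      rw [hsplit ω]
      ring
    have h5 : 0 ≤ ∫ ω in AA Y a m, (R ω) ^ 2 ∂P := integral_nonneg fun ω => sq_nonneg _
    have h6 : a ^ 2 * (P (AA Y a m)).toReal ≤ ∫ ω in AA Y a m, (SS Y m ω) ^ 2 ∂P := by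
      have h7 : ∫ _ω in AA Y a m, a ^ 2 ∂P = a ^ 2 * (P (AA Y a m)).toReal := by
        rw [setIntegral_const, smul_eq_mul, mul_comm]
        rfl
      rw [← h7]
      refine setIntegral_mono_on (integrable_const _).integrableOn (hSq m).integrableOn (hAm m) ?_
      intro ω hω
      have h8 : a ≤ |SS Y m ω| := hω.1
      calc a ^ 2 ≤ |SS Y m ω| ^ 2 := pow_le_pow_left₀ ha.le h8 2
        _ = _ := sq_abs _
    rw [hexp, hcross']
    linarith
  have h1 : (P {ω | ∃ m ≤ n, a ≤ |SS Y m ω|}).toReal ≤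
      ∑ m ∈ range (n + 1), (P (AA Y a m)).toReal := by
    refine (ENNReal.toReal_mono (measure_ne_top _ _) (measure_mono (AA_union Y a n))).trans ?_
    exact measureReal_biUnion_finset_le _ _
  have h2 : ∑ m ∈ range (n + 1), ∫ ω in AA Y a m, (SS Y n ω) ^ 2 ∂P ≤
      ∫ ω, (SS Y n ω) ^ 2 ∂P := by
    rw [← integral_biUnion_finset _ (fun m _ => hAm m)
      (fun i _ j _ hij => AA_disjoint Y a hij) (fun m _ => (hSq n).integrableOn)]
    exact setIntegral_le_integral (hSq n) (ae_of_all _ fun ω => sq_nonneg _)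
  have h3 : a ^ 2 * ∑ m ∈ range (n + 1), (P (AA Y a m)).toReal ≤ n * v := by
    rw [← hSn, Finset.mul_sum]
    exact (Finset.sum_le_sum key).trans h2
  rw [le_div_iff₀ (by positivity)]
  have ha2 : 0 < a ^ 2 := by positivity
  nlinarith

/-- **Kolmogorov's maximal inequality**. -/
theorem walk_max (X : ℕ → Ω → ℝ) (hindep : iIndepFun X P)
    (hident : ∀ n, IdentDistrib (X n) (X 0) P P) (hL2 : MemLp (X 0) 2 P)
    (hmean : ∫ ω, X 0 ω ∂P = 0) :
    ∀ a > 0, ∀ n : ℕ, (P {ω | ∃ m ≤ n, a ≤ |∑ k ∈ range m, X k ω|}).toReal ≤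
      n * (∫ ω, (X 0 ω) ^ 2 ∂P) / a ^ 2 := by
  intro a ha n
  have hae : ∀ n, AEMeasurable (X n) P := fun n => (hident n).aemeasurable_fst
  set Y : ℕ → Ω → ℝ := fun n => (hae n).mk (X n) with hY
  have hYm : ∀ n, Measurable (Y n) := fun n => (hae n).measurable_mk
  have hXY : ∀ n, X n =ᵐ[P] Y n := fun n => (hae n).ae_eq_mk
  have hYindep : iIndepFun Y P := hindep.congr hXY
  have hall : ∀ᵐ ω ∂P, ∀ n, X n ω = Y n ω := ae_all_iff.2 hXY
  have hYL : ∀ n, MemLp (Y n) 2 P := fun n => ((hident n).memLp_iff.2 hL2).ae_eq (hXY n)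
  have hYmean : ∀ n, ∫ ω, Y n ω ∂P = 0 := by
    intro n
    rw [← integral_congr_ae (hXY n), (hident n).integral_eq, hmean]
  have hYvar : ∀ n, ∫ ω, (Y n ω) ^ 2 ∂P = ∫ ω, (X 0 ω) ^ 2 ∂P := by
    intro n
    have h1 : ∫ ω, (Y n ω) ^ 2 ∂P = ∫ ω, (X n ω) ^ 2 ∂P := by
      apply integral_congr_ae
      filter_upwards [hXY n] with ω hω
      rw [hω]
    have h2 := ((hident n).comp (u := fun x : ℝ => x ^ 2) (by fun_prop)).integral_eq
    rw [h1]
    exact h2
  have key := walk_max_aux Y hYm hYindep hYL hYmean hYvar ha n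
  refine le_trans (le_of_eq ?_) key
  congr 1
  apply measure_congr
  filter_upwards [hall] with ω hω
  apply propext
  show (∃ m ≤ n, a ≤ |∑ k ∈ range m, X k ω|) ↔ (∃ m ≤ n, a ≤ |∑ k ∈ range m, Y k ω|)
  simp only [hω]

end BIDLA
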